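import Pool.Agent.X100.Diff.Main

set_option autoImplicit false

open MeasureTheory Set Filter Topology Metric

namespace Pool.Agent.Results.MP_840fa9_an.DeltaUC

variable {X : Type*} [NormedAddCommGroup X] [NormedSpace ℂ X]

/-- The admissible intervals `ℝ`, `[α, ∞)`, `(α, ∞)`. -/
def Admissible (J : Set ℝ) : Prop := J = univ ∨ ∃ α : ℝ, J = Ici α ∨ J = Ioi α

/-- The function `g(t) = e^{i t²}`. -/
noncomputable def g (t : ℝ) : ℂ := Complex.exp (Complex.I * ((t ^ 2 : ℝ) : ℂ))

/-- The restriction of `f` to `J` is in `UC(J, X) + g UC(J, X)`. -/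
def UCgUC (J : Set ℝ) (f : ℝ → X) : Prop :=
  ∃ u v : ℝ → X, UniformContinuousOn u J ∧ UniformContinuousOn v J ∧
    ∀ t ∈ J, f t = u t + g t • v t

/-- The restriction of `f` to `J` is in `L¹_loc(J, X)`: Bochner integrable on every compact
subinterval of `J`. -/
def L1loc (J : Set ℝ) (f : ℝ → X) : Prop :=
  ∀ p q : ℝ, Icc p q ⊆ J → IntegrableOn f (Icc p q)

/-- The difference `(Δ_a f)(t) = f(t + a) - f(t)`. -/
def diff (a : ℝ) (f : ℝ → X) (t : ℝ) : X := f (t + a) - f t

/-- The mean `(M_h f)(t) = h⁻¹ ∫_t^{t+h} f`. -/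
noncomputable def mean (h : ℝ) (f : ℝ → X) (t : ℝ) : X := h⁻¹ • ∫ s in t..(t + h), f s

/-- Condition `(Δ)` for a class `A` of functions on `J`. -/
def PropDelta (J : Set ℝ) (A : (ℝ → X) → Prop) : Prop :=
  ∀ f : ℝ → X, L1loc J f → (∀ a, 0 < a → A (diff a f)) →
    ∀ h, 0 < h → A (fun t => f t - mean h f t)

noncomputable def e (x : ℝ) : ℂ := Complex.exp (Complex.I * (x : ℂ))

lemma e_norm (x : ℝ) : ‖e x‖ = 1 := by
  unfold e
  rw [mul_comm, Complex.norm_exp_ofReal_mul_I]

lemma e_cont : Continuous e := by unfold e; fun_prop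

lemma g_eq (t : ℝ) : g t = e (t ^ 2) := rfl

lemma e_add (x y : ℝ) : e (x + y) = e x * e y := by
  unfold e
  rw [← Complex.exp_add]
  push_cast
  ring_nf

lemma e_int (k : ℤ) : e (2 * Real.pi * k) = 1 := by
  unfold e
  rw [Complex.exp_eq_one_iff]
  refine ⟨k, ?_⟩
  push_cast
  ring

lemma e_pi : e Real.pi = -1 := by
  unfold e
  rw [mul_comm, Complex.exp_pi_mul_I]

lemma kern : Pool.Agent.X100.Diff.Kern (𝕜 := ℂ) e (fun x => e (-x)) (1 / (2 * Real.pi)) where
  wc := e_cont
  ψc := e_cont.comp continuous_neg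
  w1 := fun x => (e_norm x).le
  ψ1 := fun x => (e_norm (-x)).le
  c0 := by positivity
  c1 := by
    have := Real.pi_ne_zero
    rw [one_div, inv_mul_cancel₀ (by positivity)]
    norm_num
  i0 := fun x => by
    have h1 : ∀ s : ℝ, e (-(x + s)) = e (-x) * Complex.exp ((-Complex.I) * (s : ℂ)) := by
      intro s
      rw [neg_add, e_add]
      congr 1
      unfold e
      push_cast
      ring_nf
    simp_rw [h1]
    rw [intervalIntegral.integral_const_mul, integral_exp_mul_complex (by simp)]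
    have h2 : Complex.exp (-Complex.I * ((2 * Real.pi : ℝ) : ℂ)) = 1 := by
      rw [Complex.exp_eq_one_iff]
      refine ⟨-1, ?_⟩
      push_cast
      ring
    rw [h2]
    simp
  i1 := fun x => by
    have h1 : ∀ s : ℝ, e (-(x + s)) * e (x + s) = 1 := by
      intro s
      rw [← e_add, neg_add_cancel]
      simp [e]
    simp_rw [h1]
    rw [intervalIntegral.integral_const, sub_zero]
    have := Real.pi_ne_zero
    simp only [Complex.real_smul, mul_one]
    have h2 : ((1 / (2 * Real.pi) : ℝ) : ℂ) * ((2 * Real.pi : ℝ) : ℂ) = 1 := by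
      rw [← Complex.ofReal_mul, one_div, inv_mul_cancel₀ (by positivity), Complex.ofReal_one]
    exact h2

/-- The coefficient of `g` in a difference is automatically bounded. -/
lemma v_bdd {J : Set ℝ} (hJ : Pool.Agent.X100.Diff.IsHalfLine J) {f : ℝ → X} {a : ℝ} (ha : 0 < a)
    {u v u' v' : ℝ → X} (hu : UniformContinuousOn u J) (hv : UniformContinuousOn v J)
    (hu' : UniformContinuousOn u' J) (hv' : UniformContinuousOn v' J)
    (h1 : ∀ t ∈ J, f (t + a) - f t = u t + g t • v t)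
    (h2 : ∀ t ∈ J, f (t + a / 2) - f t = u' t + g t • v' t) : ∃ B, ∀ t ∈ J, ‖v t‖ ≤ B := by
  have ha2 : 0 ≤ a / 2 := by linarith
  obtain ⟨B1, _, hB1⟩ := Pool.Agent.X100.Diff.uc_osc hJ hu (a / 2)
  obtain ⟨B2, _, hB2⟩ := Pool.Agent.X100.Diff.uc_osc hJ hv (a / 2)
  obtain ⟨B3, _, hB3⟩ := Pool.Agent.X100.Diff.uc_osc hJ hu' a
  obtain ⟨B4, _, hB4⟩ := Pool.Agent.X100.Diff.uc_osc hJ hv' a
  obtain ⟨B5, _, hB5⟩ := Pool.Agent.X100.Diff.uc_osc hJ hv (2 * Real.pi / a)
  have hgn : ∀ t, ‖g t‖ = 1 := fun t => e_norm _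
  -- the cocycle identity
  have hco : ∀ t ∈ J, ‖(g (t + a / 2) - g t) • v t - (g (t + a) - g t) • v' t‖ ≤
      B1 + B2 + B3 + B4 := by
    intro t ht
    have m1 := hJ.add_mem ht ha2
    have m2 := hJ.add_mem ht ha.le
    have e1 := h1 t ht
    have e2 := h1 (t + a / 2) m1
    have e3 := h2 t ht
    have e4 := h2 (t + a) m2
    have e5 : t + a / 2 + a = t + a + a / 2 := by ring
    rw [e5] at e2
    have key : (u (t + a / 2) - u t) + g (t + a / 2) • (v (t + a / 2) - v t) +
        (g (t + a / 2) - g t) • v t =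
        (u' (t + a) - u' t) + g (t + a) • (v' (t + a) - v' t) + (g (t + a) - g t) • v' t := by
      have l1 : (u (t + a / 2) - u t) + g (t + a / 2) • (v (t + a / 2) - v t) +
        (g (t + a / 2) - g t) • v t = (u (t + a / 2) + g (t + a / 2) • v (t + a / 2)) -
          (u t + g t • v t) := by
        rw [smul_sub, sub_smul]; abel
      have l2 : (u' (t + a) - u' t) + g (t + a) • (v' (t + a) - v' t) + (g (t + a) - g t) • v' t =
          (u' (t + a) + g (t + a) • v' (t + a)) - (u' t + g t • v' t) := by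
        rw [smul_sub, sub_smul]; abel
      rw [l1, l2, ← e1, ← e2, ← e3, ← e4]
      abel
    have key2 : (g (t + a / 2) - g t) • v t - (g (t + a) - g t) • v' t =
        ((u' (t + a) - u' t) + g (t + a) • (v' (t + a) - v' t)) -
        ((u (t + a / 2) - u t) + g (t + a / 2) • (v (t + a / 2) - v t)) := by
      rw [sub_eq_sub_iff_add_eq_add]
      rw [add_comm, key]
    rw [key2]
    have n1 := hB1 t ht (a / 2) ha2 le_rfl
    have n2 := hB2 t ht (a / 2) ha2 le_rfl
    have n3 := hB3 t ht a ha.le le_rfl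
    have n4 := hB4 t ht a ha.le le_rfl
    have n5 : ‖g (t + a) • (v' (t + a) - v' t)‖ ≤ B4 := by
      rw [norm_smul, hgn, one_mul]; exact n4
    have n6 : ‖g (t + a / 2) • (v (t + a / 2) - v t)‖ ≤ B2 := by
      rw [norm_smul, hgn, one_mul]; exact n2
    refine (norm_sub_le _ _).trans ?_
    have n7 := norm_add_le (u' (t + a) - u' t) (g (t + a) • (v' (t + a) - v' t))
    have n8 := norm_add_le (u (t + a / 2) - u t) (g (t + a / 2) • (v (t + a / 2) - v t))
    linarith
  refine ⟨B1 + B2 + B3 + B4 + B5, fun t ht => ?_⟩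
  -- a good point to the right of t
  obtain ⟨r, hr0, hr1, hga, hgb⟩ : ∃ r, 0 ≤ r ∧ r ≤ 2 * Real.pi / a ∧ g (t + r + a) = g (t + r) ∧
      1 ≤ ‖g (t + r + a / 2) - g (t + r)‖ := by
    have hpi := Real.pi_pos
    -- points t_k with 2 a t_k + a² = 2 π k
    set pt : ℤ → ℝ := fun k => (2 * Real.pi * k - a ^ 2) / (2 * a) with hpt
    have hg1 : ∀ k, g (pt k + a) = g (pt k) := by
      intro k
      rw [g_eq, g_eq]
      have : (pt k + a) ^ 2 = pt k ^ 2 + 2 * Real.pi * k := by
        simp only [hpt]; field_simp; ring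
      rw [this, e_add, e_int, mul_one]
    have hg2 : ∀ k, g (pt k + a / 2) - g (pt k) =
        g (pt k) * (e (Real.pi * k - a ^ 2 / 4) - 1) := by
      intro k
      rw [g_eq, g_eq]
      have : (pt k + a / 2) ^ 2 = pt k ^ 2 + (Real.pi * k - a ^ 2 / 4) := by
        simp only [hpt]; field_simp; ring
      rw [this, e_add]; ring
    set k0 : ℤ := ⌈(2 * a * t + a ^ 2) / (2 * Real.pi)⌉ with hk0
    have c1 : (2 * a * t + a ^ 2) / (2 * Real.pi) ≤ k0 := Int.le_ceil _
    have c2 : (k0 : ℝ) < (2 * a * t + a ^ 2) / (2 * Real.pi) + 1 := Int.ceil_lt_add_one _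
    rw [div_le_iff₀ (by positivity)] at c1
    have c2' : (k0 : ℝ) * (2 * Real.pi) < (2 * a * t + a ^ 2) + 2 * Real.pi := by
      have := mul_lt_mul_of_pos_right c2 (show 0 < 2 * Real.pi by positivity)
      rwa [add_mul, one_mul, div_mul_cancel₀ _ (by positivity)] at this
    have d1 : ∀ k : ℤ, (2 * Real.pi * k - a ^ 2) = 2 * a * pt k := by
      intro k; simp only [hpt]; field_simp
    have b1 : 0 ≤ pt k0 - t := by
      have := d1 k0
      by_contra hcon
      push Not at hcon
      nlinarith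
    have b2 : pt k0 - t ≤ 2 * Real.pi / a := by
      rw [le_div_iff₀ ha]
      have := d1 k0
      nlinarith
    have b3 : 0 ≤ pt (k0 + 1) - t := by
      have := d1 (k0 + 1)
      push_cast at this
      by_contra hcon
      push Not at hcon
      nlinarith
    have b4 : pt (k0 + 1) - t ≤ 2 * Real.pi / a := by
      rw [le_div_iff₀ ha]
      have := d1 (k0 + 1)
      push_cast at this
      nlinarith
    set z := e (Real.pi * k0 - a ^ 2 / 4) with hz
    have hz1 : e (Real.pi * ((k0 + 1 : ℤ) : ℝ) - a ^ 2 / 4) = -z := by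
      have : Real.pi * ((k0 + 1 : ℤ) : ℝ) - a ^ 2 / 4 =
          (Real.pi * k0 - a ^ 2 / 4) + Real.pi := by push_cast; ring
      rw [this, e_add, e_pi]; ring
    by_cases hc : 1 ≤ ‖z - 1‖
    · refine ⟨pt k0 - t, b1, b2, ?_, ?_⟩
      · rw [add_sub_cancel]; exact hg1 k0
      · rw [add_sub_cancel, hg2, norm_mul, hgn, one_mul]
        exact hc
    · refine ⟨pt (k0 + 1) - t, b3, b4, ?_, ?_⟩
      · rw [add_sub_cancel]; exact hg1 _
      · rw [add_sub_cancel, hg2, norm_mul, hgn, one_mul, hz1]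
        push Not at hc
        have hz2 : ‖z‖ = 1 := e_norm _
        have h3 : ‖(2 : ℂ) * z‖ ≤ ‖z - 1‖ + ‖-z - 1‖ := by
          have : (2 : ℂ) * z = (z - 1) - (-z - 1) := by ring
          rw [this]
          exact norm_sub_le _ _
        rw [norm_mul, hz2, mul_one, Complex.norm_ofNat] at h3
        linarith
  have hm := hJ.add_mem ht hr0
  have h3 := hco (t + r) hm
  rw [hga, sub_self, zero_smul, sub_zero, norm_smul] at h3
  have h4 : ‖v (t + r)‖ ≤ ‖g (t + r + a / 2) - g (t + r)‖ * ‖v (t + r)‖ := by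
    nlinarith [norm_nonneg (v (t + r))]
  have h5 := hB5 t ht r hr0 hr1
  have h6 : ‖v t‖ ≤ ‖v (t + r)‖ + ‖v (t + r) - v t‖ := by
    have : v t = v (t + r) - (v (t + r) - v t) := by abel
    calc ‖v t‖ = ‖v (t + r) - (v (t + r) - v t)‖ := by rw [← this]
      _ ≤ _ := norm_sub_le _ _
  linarith

/-- **Affirmative answer to Q1.** For every admissible interval `J` and every complex Banach space
`X`, the space `UC(J, X) + g UC(J, X)`, `g(t) = e^{i t²}`, satisfies `(Δ)`. -/
theorem result (X : Type*) [NormedAddCommGroup X] [NormedSpace ℂ X] [CompleteSpace X]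
    (J : Set ℝ) (hJ : Admissible J) : PropDelta J (UCgUC (X := X) J) := by
  intro f hf hd h hh
  have hJ' : Pool.Agent.X100.Diff.IsHalfLine J := hJ
  have hgc : Continuous g := by
    have : g = fun t => e (t ^ 2) := rfl
    rw [this]
    exact e_cont.comp (continuous_pow 2)
  have hfc : ContinuousOn f J := by
    refine Pool.Agent.X100.Diff.continuousOn_of_delta hJ hf fun a ha => ?_
    obtain ⟨u, v, hu, hv, h⟩ := hd a ha
    exact ContinuousOn.congr (hu.continuousOn.add (hgc.continuousOn.smul hv.continuousOn)) h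
  obtain ⟨U, V, hU, hV, _, hUV⟩ := Pool.Agent.X100.Diff.main hJ' kern hfc
    (fun a ha => hd a ha)
    (fun a ha => by
      obtain ⟨u, v, hu, hv, h1⟩ := hd a ha
      obtain ⟨u', v', hu', hv', h2⟩ := hd (a / 2) (by linarith)
      obtain ⟨Bv, hBv⟩ := v_bdd hJ' ha hu hv hu' hv' h1 h2
      obtain ⟨Bu, _, hBu⟩ := Pool.Agent.X100.Diff.uc_osc hJ' hu 4
      refine ⟨Bu + 2 * Bv, fun t ht r hr0 hr4 => ?_⟩
      have ht2 := hJ'.add_mem ht hr0
      have e1 := h1 t ht
      have e2 := h1 (t + r) ht2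
      unfold diff at e1 e2
      rw [e1, e2]
      have e3 : u (t + r) + g (t + r) • v (t + r) - (u t + g t • v t) =
          (u (t + r) - u t) + (g (t + r) • v (t + r) - g t • v t) := by abel
      rw [e3]
      have n1 := hBu t ht r hr0 hr4
      have n2 : ‖g (t + r) • v (t + r)‖ ≤ Bv := by
        rw [norm_smul, g_eq, e_norm, one_mul]; exact hBv _ ht2
      have n3 : ‖g t • v t‖ ≤ Bv := by
        rw [norm_smul, g_eq, e_norm, one_mul]; exact hBv _ ht
      have n4 := norm_sub_le (g (t + r) • v (t + r)) (g t • v t)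
      refine (norm_add_le _ _).trans ?_
      linarith) h hh
  exact ⟨U, V, hU, hV, hUV⟩

end Pool.Agent.Results.MP_840fa9_an.DeltaUC
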